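import Pool.Agent.H84.Mk

namespace Pool.Agent.Results.MP_446ff5_lc.Yes

open Pool.Agent.H84.MkDefs

theorem result : ∃ (k m : ℕ) (ψ : QF (Fin 2 ⊕ Fin k ⊕ Fin m)), ∀ (d : ℕ) (F : Type) [Field F]
    [LinearOrder F] [IsStrictOrderedRing F], (∀ a : F, 0 ≤ a → ∃ b, b * b = a) →
    ∀ x y : Fin (d + 3) → F, 0 < mu x y ↔ ∃ u : Fin k → Fin (d + 3) → F,
      ∀ v : Fin m → Fin (d + 3) → F, ψ.Holds Lightlike (Sum.elim ![x, y] (Sum.elim u v)) :=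
  Pool.Agent.H84.Mk.main

end Pool.Agent.Results.MP_446ff5_lc.Yes
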